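import Pool.Agent.Q264.KS.Stm

/-!
# Backup of the job KS-SELN of project KS (helper264)
-/

set_option autoImplicit false

namespace Pool.Agent.Q91.KS

open Module Metric
open Pool.Agent.Q264.KS

universe u

theorem t_SELN : S_SELN.{u} := by
  intro X _ _ _ _ g
  haveI : ProperSpace X := FiniteDimensional.proper ℝ X
  have hs : IsCompact (sphere (0 : X) 1) := isCompact_sphere 0 1
  obtain ⟨x, hx, hmax⟩ := hs.exists_isMaxOn (NormedSpace.sphere_nonempty.2 zero_le_one)
    g.continuous.continuousOn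
  have hx1 : ‖x‖ = 1 := by simpa using hx
  refine ⟨x, hx1, le_antisymm ?_ ?_⟩
  · calc g x ≤ ‖g x‖ := le_abs_self _
      _ ≤ ‖g‖ * ‖x‖ := g.le_opNorm x
      _ = ‖g‖ := by rw [hx1, mul_one]
  · have hmx : ∀ z : X, ‖z‖ = 1 → g z ≤ g x := fun z hz => hmax (by simpa using hz)
    have h0 : 0 ≤ g x := by
      have h1 := hmx x hx1
      have h2 := hmx (-x) (by rw [norm_neg, hx1])
      rw [map_neg] at h2
      linarith
    refine g.opNorm_le_bound h0 fun z => ?_
    rcases eq_or_ne z 0 with hz | hz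
    · simp [hz]
    · have hz0 : 0 < ‖z‖ := norm_pos_iff.2 hz
      have hu : ‖(‖z‖⁻¹) • z‖ = 1 := by
        rw [norm_smul, norm_inv, norm_norm, inv_mul_cancel₀ hz0.ne']
      have h1 := hmx _ hu
      have h2 := hmx (-((‖z‖⁻¹) • z)) (by rw [norm_neg, hu])
      rw [map_neg] at h2
      rw [map_smul, smul_eq_mul] at h1 h2
      have h3 : ‖z‖⁻¹ * |g z| ≤ g x := by
        rcases abs_cases (g z) with ⟨h, _⟩ | ⟨h, _⟩
        · rw [h]
          exact h1
        · rw [h, mul_neg]
          exact h2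
      rw [Real.norm_eq_abs]
      rw [inv_mul_le_iff₀ hz0] at h3
      linarith [mul_comm ‖z‖ (g x)]

end Pool.Agent.Q91.KS
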